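import Pool.Agent.Helper77.GS.Cl
import Pool.Agent.Helper61.GS.Elim
import Pool.Agent.Helper97.GS.Special

/-!
# FIN, block THREE: three independent points of `X` with proportional values

`not_three`: for generic `ℓ` there are no three linearly independent points `x a` of `X`, each on a hyperplane `ℓ (ρ i)`, such that
`ℓ i (x a) = c i * ℓ (ρ i) (x a)` for all `a` (with the same `c i`), if `3 n + 1 ≤ 2 (q - |ρ|) + 3`. Count: `3 n` parameters for the points,
one for each `c i`, `i ∉ ρ`; three coordinates of each `ℓ i`, `i ∉ ρ`, and three coordinates of the representatives are determined.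
-/

set_option autoImplicit false

namespace Pool.Agent.FIN

open Pool.Agent.GS MvPolynomial

universe u

/-- Three linearly independent points of `X` with proportional values, each of them on one of the hyperplanes `ℓ (ρ i)`. -/
def Three {k K : Type u} [Field k] [Field K] [Algebra k K] {N q : ℕ} (I : Set (MvPolynomial (Fin (N + 1)) k))
    (ρ : Fin q → Fin q) (ℓ : Fin q → Fin (N + 1) → K) : Prop :=
  ∃ (x : Fin 3 → Fin (N + 1) → K) (c : Fin q → K), LinearIndependent K x ∧ (∀ a, OnX I (x a)) ∧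
    (∀ i, c i ≠ 0 ∧ ∀ a, dt (ℓ i) (x a) = c i * dt (ℓ (ρ i)) (x a)) ∧ ∀ a, ∃ i, dt (ℓ (ρ i)) (x a) = 0

/-- Linearly independent rows have a nonzero maximal minor. -/
theorem minor17 {K : Type*} [Field K] {ι : Type*} [Fintype ι] [DecidableEq ι] {N : ℕ}
    (x : ι → Fin (N + 1) → K) (hx : LinearIndependent K x) :
    ∃ b : ι → Fin (N + 1), (Matrix.of fun a a' => x a (b a')).det ≠ 0 := by
  classical
  set d := Fintype.card ι with hd
  let e : Fin d ≃ ι := (Fintype.equivFin ι).symm
  let M : Matrix (Fin d) (Fin (N + 1)) K := Matrix.of fun a => x (e a)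
  have h1 : M.rank = d := by
    have : LinearIndependent K M.row := hx.comp e e.injective
    rw [this.rank_matrix, Fintype.card_fin]
  have h2 : (M.transpose).rank = d := by rw [Matrix.rank_transpose, h1]
  rw [Matrix.rank_eq_finrank_span_row] at h2
  have h4 := Submodule.exists_fun_fin_finrank_span_eq K (Set.range M.transpose.row)
  rw [h2] at h4
  obtain ⟨f, hf1, _, hf3⟩ := h4
  choose c hc using hf1
  refine ⟨fun a => c (e.symm a), ?_⟩
  have h3 : LinearIndependent K (Matrix.of fun a b => M b (c a)).row := by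
    have : (Matrix.of fun a b => M b (c a)).row = f := by
      funext a
      rw [← hc a]
      rfl
    rw [this]
    exact hf3
  have h5 : (Matrix.of fun a b => M b (c a)).det ≠ 0 :=
    ((Matrix.isUnit_iff_isUnit_det _).mp (Matrix.linearIndependent_rows_iff_isUnit.mp h3)).ne_zero
  rw [← Matrix.det_transpose] at h5
  have h6 : (Matrix.of fun a a' => x a (c (e.symm a'))) =
      Matrix.reindex e e (Matrix.of fun a b => M b (c a)).transpose := by
    ext a a'
    simp [M, Matrix.reindex_apply, Matrix.transpose_apply]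
  rw [h6, Matrix.det_reindex_self]
  exact h5

/-- `|ι|` coordinates of a linear form are determined by the others and its values at `|ι|` independent points. -/
theorem solve17 {K : Type*} [Field K] {ι : Type*} [Fintype ι] [DecidableEq ι] {N : ℕ}
    (x : ι → Fin (N + 1) → K) (hx : LinearIndependent K x) (m : ι → Fin (N + 1)) (hm : ∀ a, x a (m a) ≠ 0) :
    ∃ J : Finset (Fin (N + 1)), J.card = Fintype.card ι ∧ ∀ (F : Subfield K) (ℓ : Fin (N + 1) → K),
      (∀ a j, x a j / x a (m a) ∈ F) → (∀ a, dt ℓ (x a) / x a (m a) ∈ F) → (∀ j, j ∉ J → ℓ j ∈ F) →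
      ∀ j, ℓ j ∈ F := by
  classical
  obtain ⟨b, hb⟩ := minor17 x hx
  have hbinj : Function.Injective b := by
    intro a a' haa
    by_contra hne
    exact hb (Matrix.det_zero_of_column_eq hne fun i => by
      simp only [Matrix.of_apply]
      rw [haa])
  refine ⟨Finset.univ.image b, by rw [Finset.card_image_of_injective _ hbinj, Finset.card_univ],
    fun F ℓ hxF hdF hJ => ?_⟩
  -- the matrix over `F`
  let M : Matrix ι ι F := Matrix.of fun a a' => (⟨x a (b a') / x a (m a), hxF a (b a')⟩ : F)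
  have hMdet : (M.map F.subtype).det ≠ 0 := by
    have h1 : M.map F.subtype = Matrix.diagonal (fun a => (x a (m a))⁻¹) * Matrix.of fun a a' => x a (b a') := by
      ext a a'
      rw [Matrix.diagonal_mul]
      show x a (b a') / x a (m a) = (x a (m a))⁻¹ * x a (b a')
      rw [div_eq_mul_inv, mul_comm]
    rw [h1, Matrix.det_mul, Matrix.det_diagonal]
    exact mul_ne_zero (Finset.prod_ne_zero_iff.2 fun a _ => inv_ne_zero (hm a)) hb
  have hMdet' : M.det ≠ 0 := by
    intro h0
    apply hMdet
    have h2 : F.subtype M.det = (M.map F.subtype).det := RingHom.map_det F.subtype M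
    rw [← h2, h0, map_zero]
  have hv : ∀ a, ∑ a', x a (b a') / x a (m a) * ℓ (b a') ∈ F := by
    intro a
    have h1 : ∑ a', x a (b a') / x a (m a) * ℓ (b a') =
        dt ℓ (x a) / x a (m a) - ∑ j ∈ (Finset.univ.image b)ᶜ, x a j / x a (m a) * ℓ j := by
      have h2 : dt ℓ (x a) / x a (m a) = ∑ j, x a j / x a (m a) * ℓ j := by
        unfold dt
        rw [Finset.sum_div]
        exact Finset.sum_congr rfl fun j _ => by ring
      rw [h2, ← Finset.sum_add_sum_compl (Finset.univ.image b), add_sub_cancel_right,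
        Finset.sum_image fun a _ a' _ h => hbinj h]
    rw [h1]
    refine F.sub_mem (hdF a) (F.sum_mem fun j hj => F.mul_mem (hxF a j) (hJ j ?_))
    rwa [Finset.mem_compl] at hj
  let v : ι → F := fun a => ⟨_, hv a⟩
  obtain ⟨w, hw⟩ : ∃ w : ι → F, M.mulVec w = v := ⟨M⁻¹.mulVec v, by
    rw [Matrix.mulVec_mulVec, Matrix.mul_nonsing_inv _ (isUnit_iff_ne_zero.mpr hMdet'), Matrix.one_mulVec]⟩
  have h3 : (M.map F.subtype).mulVec (fun a => (w a : K)) = (M.map F.subtype).mulVec fun a => ℓ (b a) := by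
    funext a
    have h4 := congrArg F.subtype (congrFun hw a)
    have h5 : F.subtype (M.mulVec w a) = (M.map F.subtype).mulVec (fun a => (w a : K)) a := by
      simp only [Matrix.mulVec, dotProduct, map_sum, map_mul]
      rfl
    rw [← h5, h4]
    rfl
  have h6 : (fun a => (w a : K)) = fun a => ℓ (b a) :=
    Matrix.mulVec_injective_of_isUnit ((Matrix.isUnit_iff_isUnit_det _).mpr (isUnit_iff_ne_zero.mpr hMdet)) h3
  intro j
  by_cases hj : j ∈ Finset.univ.image b
  · obtain ⟨a, _, rfl⟩ := Finset.mem_image.mp hj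
    rw [← congrFun h6 a]
    exact (w a).2
  · exact hJ j hj

/-- the closure as a subfield -/
theorem clF17 {k K : Type u} [Field k] [Field K] [Algebra k K] (s : Set K) :
    ∃ F : Subfield K, ∀ z, z ∈ F ↔ z ∈ cl k s :=
  ⟨{ carrier := cl k s
     mul_mem' := fun ha hb => cl_mul ha hb
     one_mem' := cl_one s
     add_mem' := fun ha hb => cl_add ha hb
     zero_mem' := cl_zero s
     neg_mem' := fun ha => cl_neg ha
     inv_mem' := fun _ ha => cl_inv ha }, fun _ => Iff.rfl⟩

theorem not_three {k K : Type u} [Field k] [Field K] [Algebra k K] {N n q : ℕ}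
    (I : Set (MvPolynomial (Fin (N + 1)) k)) (hD : Dim k I n) (ρ : Fin q → Fin q)
    (h : 3 * n + 1 ≤ 2 * (q - (Finset.univ.image ρ).card) + 3) (ℓ : Fin q → Fin (N + 1) → K)
    (hind : AlgebraicIndependent k (fun p : Fin q × Fin (N + 1) => ℓ p.1 p.2)) : ¬ Three I ρ ℓ := by
  classical
  rintro ⟨x, c, hx, hX, hc, hzero⟩
  have hxa : ∀ a, ∃ m, x a m ≠ 0 := fun a => Function.ne_iff.1 (hx.ne_zero a)
  choose m hm using hxa
  choose i₀ hi₀ using hzero
  set R := Finset.univ.image ρ with hR
  have hρR : ∀ i, ρ i ∈ R := fun i => Finset.mem_image_of_mem ρ (Finset.mem_univ i)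
  -- the conditions
  let A : Fin q → Finset (Fin 3) := fun i => if i ∈ R then Finset.univ.filter fun a => ρ (i₀ a) = i else Finset.univ
  have hsol : ∀ i, ∃ J : Finset (Fin (N + 1)), J.card = (A i).card ∧ ∀ (F : Subfield K) (ℓ : Fin (N + 1) → K),
      (∀ a ∈ A i, ∀ j, x a j / x a (m a) ∈ F) → (∀ a ∈ A i, dt ℓ (x a) / x a (m a) ∈ F) → (∀ j, j ∉ J → ℓ j ∈ F) →
      ∀ j, ℓ j ∈ F := by
    intro i
    obtain ⟨J, hJ, hJ'⟩ := solve17 (fun a : A i => x a) (hx.comp _ Subtype.val_injective) (fun a => m a)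
      (fun a => hm a)
    refine ⟨J, by rw [hJ, Fintype.card_coe], fun F ℓ h1 h2 h3 => hJ' F ℓ (fun a j => h1 a a.2 j) (fun a => h2 a a.2) h3⟩
  choose J hJ hJ' using hsol
  let D : Finset (Fin q × Fin (N + 1)) := Finset.univ.filter fun p => p.2 ∈ J p.1
  have hDc : D.card = 3 * (q - R.card) + 3 := by
    have h1 : D.card = ∑ i, (J i).card := by
      rw [Finset.card_filter, Fintype.sum_prod_type]
      refine Finset.sum_congr rfl fun i _ => ?_
      rw [← Finset.card_filter]
      congr 1
      ext j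
      simp
    rw [h1, Finset.sum_congr rfl fun i _ => hJ i, ← Finset.sum_add_sum_compl R]
    have h2 : ∑ i ∈ R, (A i).card = 3 := by
      have h3 : ∑ i ∈ R, (A i).card = ∑ i ∈ R, (Finset.univ.filter fun a : Fin 3 => ρ (i₀ a) = i).card :=
        Finset.sum_congr rfl fun i hi => by
          show (if i ∈ R then _ else _ : Finset (Fin 3)).card = _
          rw [if_pos hi]
      rw [h3, ← Finset.card_eq_sum_card_fiberwise (f := fun a => ρ (i₀ a)) (fun a _ => hρR _),
        Finset.card_univ, Fintype.card_fin]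
    have h4 : ∑ i ∈ Rᶜ, (A i).card = 3 * (q - R.card) := by
      have h3 : ∀ i ∈ Rᶜ, (A i).card = 3 := by
        intro i hi
        rw [Finset.mem_compl] at hi
        show (if i ∈ R then _ else _ : Finset (Fin 3)).card = _
        rw [if_neg hi, Finset.card_univ, Fintype.card_fin]
      rw [Finset.sum_congr rfl h3, Finset.sum_const, smul_eq_mul, Finset.card_compl, Fintype.card_fin, mul_comm]
    rw [h2, h4, add_comm]
  let X : Set K := (⋃ a, Rat (x a)) ∪ (c '' ((Rᶜ : Finset _) : Set _))
  have hX' : rk k X ≤ ((3 * n + (q - R.card) : ℕ) : ℕ∞) := by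
    refine ((AlgebraicIndependent.matroid k K).eRk_union_le_eRk_add_eRk _ _).trans ?_
    rw [Nat.cast_add]
    refine add_le_add ?_ ((rk_image_le _ _).trans ?_)
    · have h1 : (⋃ a, Rat (x a)) = (Rat (x 0) ∪ Rat (x 1)) ∪ Rat (x 2) := by
        ext z
        simp only [Set.mem_iUnion, Set.mem_union]
        constructor
        · rintro ⟨a, ha⟩
          fin_cases a
          · exact Or.inl (Or.inl ha)
          · exact Or.inl (Or.inr ha)
          · exact Or.inr ha
        · rintro ((ha | ha) | ha)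
          · exact ⟨0, ha⟩
          · exact ⟨1, ha⟩
          · exact ⟨2, ha⟩
      rw [h1]
      refine ((AlgebraicIndependent.matroid k K).eRk_union_le_eRk_add_eRk _ _).trans ?_
      have h2 := (AlgebraicIndependent.matroid k K).eRk_union_le_eRk_add_eRk (Rat (x 0)) (Rat (x 1))
      have h3 : ((3 * n : ℕ) : ℕ∞) = ((n : ℕ∞) + n) + n := by
        have : 3 * n = n + n + n := by ring
        rw [this]
        push_cast
        rfl
      rw [h3]
      exact add_le_add (h2.trans (add_le_add (hD K _ (hX 0)) (hD K _ (hX 1)))) (hD K _ (hX 2))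
    · rw [Finset.card_compl, Fintype.card_fin]
  have hD' : D.card ≤ 3 * n + (q - R.card) := by
    obtain ⟨F, hF⟩ := clF17 (k := k) ((fun p : Fin q × Fin (N + 1) => ℓ p.1 p.2) '' ((Dᶜ : Finset _) : Set _) ∪ X)
    have hxF : ∀ a j, x a j / x a (m a) ∈ F := fun a j =>
      (hF _).2 (subset_cl _ (Or.inr (Or.inl (Set.mem_iUnion.2 ⟨a, ⟨j, m a, rfl⟩⟩))))
    have hnot : ∀ i j, j ∉ J i → ℓ i j ∈ F := by
      intro i j hj
      refine (hF _).2 (subset_cl _ (Or.inl ⟨(i, j), ?_, rfl⟩))
      simp only [D, Finset.coe_compl, Set.mem_compl_iff, Finset.mem_coe, Finset.mem_filter, Finset.mem_univ, true_and]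
      exact hj
    have hrep : ∀ i ∈ R, ∀ j, ℓ i j ∈ F := by
      intro i hi
      refine hJ' i F (ℓ i) (fun a _ j => hxF a j) (fun a ha => ?_) (hnot i)
      have ha' : a ∈ (if i ∈ R then Finset.univ.filter fun a => ρ (i₀ a) = i else Finset.univ) := ha
      rw [if_pos hi, Finset.mem_filter] at ha'
      rw [← ha'.2, hi₀ a, zero_div]
      exact F.zero_mem
    have hall : ∀ i j, ℓ i j ∈ F := by
      intro i
      by_cases hi : i ∈ R
      · exact hrep i hi
      · refine hJ' i F (ℓ i) (fun a _ j => hxF a j) (fun a _ => ?_) (hnot i)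
        rw [(hc i).2 a, mul_div_assoc]
        refine F.mul_mem ((hF _).2 (subset_cl _ (Or.inr (Or.inr ⟨i, by simpa using hi, rfl⟩)))) ?_
        unfold dt
        rw [Finset.sum_div]
        refine F.sum_mem fun j _ => ?_
        rw [mul_div_assoc]
        exact F.mul_mem (hrep _ (hρR i) j) (hxF a j)
    exact count97 (fun p : Fin q × Fin (N + 1) => ℓ p.1 p.2) hind D X _ hX' fun p _ => (hF _).1 (hall p.1 p.2)
  omega

/-- the unknowns -/
private inductive Un17 (N q : ℕ) : Type
  | x (a : Fin 3) (j : Fin (N + 1))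
  | c (i : Fin q)
  | d (i : Fin q)
  | m (e : Fin 3 → Fin (N + 1))

private noncomputable def px17 (k : Type u) [Field k] {N q : ℕ} (g : Fin q) (a : Fin 3) :
    MvPolynomial ((Fin q × Fin (N + 1)) ⊕ Un17 N q) k :=
  ∑ j, X (Sum.inl (g, j)) * X (Sum.inr (Un17.x a j))

private theorem px17_aeval {k K : Type u} [Field k] [Field K] [Algebra k K] {N q : ℕ} (g : Fin q) (i : Fin 3)
    (s : Fin q × Fin (N + 1) → K) (t : Un17 N q → K) :
    aeval (Sum.elim s t) (px17 k g i) = dt (fun j => s (g, j)) (fun j => t (Un17.x i j)) := by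
  unfold px17 dt
  rw [map_sum]
  refine Finset.sum_congr rfl fun j _ => ?_
  rw [map_mul, aeval_X, aeval_X]
  rfl

private noncomputable def mi17 (k : Type u) [Field k] (N q : ℕ) : MvPolynomial ((Fin q × Fin (N + 1)) ⊕ Un17 N q) k :=
  ∑ e, X (Sum.inr (Un17.m e)) *
    (Matrix.of fun a b => (X (Sum.inr (Un17.x a (e b))) : MvPolynomial ((Fin q × Fin (N + 1)) ⊕ Un17 N q) k)).det - 1

private theorem mi17_aeval {k K : Type u} [Field k] [Field K] [Algebra k K] {N q : ℕ}
    (s : Fin q × Fin (N + 1) → K) (t : Un17 N q → K) :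
    aeval (Sum.elim s t) (mi17 k N q) =
      ∑ e : Fin 3 → Fin (N + 1), t (Un17.m e) * (Matrix.of fun a b => t (Un17.x a (e b))).det - 1 := by
  unfold mi17
  rw [map_sub, map_one, map_sum]
  congr 1
  refine Finset.sum_congr rfl fun e _ => ?_
  rw [map_mul, aeval_X, AlgHom.map_det]
  congr 2
  ext a b
  simp [AlgHom.mapMatrix_apply]

/-- Linear forms with such points lie on a hypersurface. -/
theorem three_phi {k : Type u} [Field k] {N n q : ℕ} (I : Set (MvPolynomial (Fin (N + 1)) k)) (hD : Dim k I n)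
    (ρ : Fin q → Fin q) (h : 3 * n + 1 ≤ 2 * (q - (Finset.univ.image ρ).card) + 3) :
    ∃ Φ : MvPolynomial (Fin q × Fin (N + 1)) k, Φ ≠ 0 ∧
      ∀ (K : Type u) [Field K] [Algebra k K] (ℓ : Fin q → Fin (N + 1) → K), Three I ρ ℓ →
        aeval (fun p : Fin q × Fin (N + 1) => ℓ p.1 p.2) Φ = 0 := by
  classical
  obtain ⟨Φ, hΦ, hΦ'⟩ := elim (k := k) (σ := Fin q × Fin (N + 1)) (τ := Un17 N q)
    ({f | ∃ a, ∃ e ∈ I, f = rename (fun j => Sum.inr (Un17.x a j)) e} ∪
      {f | ∃ i a, f = px17 k i a - X (Sum.inr (Un17.c i)) * px17 k (ρ i) a} ∪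
      {f | ∃ i, f = X (Sum.inr (Un17.c i)) * X (Sum.inr (Un17.d i)) - 1} ∪
      {f | ∃ a, f = ∏ i, px17 k (ρ i) a} ∪ {mi17 k N q})
    (by
      intro L _ _ s t hs hall
      refine not_three I hD ρ h (fun g j => s (g, j)) hs ⟨fun a j => t (Un17.x a j), fun i => t (Un17.c i),
        ?_, ?_, ?_, ?_⟩
      · by_contra hli
        have h1 := hall _ (Or.inr rfl)
        rw [mi17_aeval, Finset.sum_eq_zero, zero_sub, neg_eq_zero] at h1
        · exact one_ne_zero h1
        · intro e _
          have h2 : (Matrix.of fun a b => t (Un17.x a (e b))).det = 0 := by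
            by_contra hne
            apply hli
            have h3 : LinearIndependent L (Matrix.of fun a b => t (Un17.x a (e b))).row :=
              Matrix.linearIndependent_rows_iff_isUnit.mpr
                ((Matrix.isUnit_iff_isUnit_det _).mpr (isUnit_iff_ne_zero.mpr hne))
            exact LinearIndependent.of_comp (LinearMap.funLeft L L e) h3
          rw [h2, mul_zero]
      · intro a e he
        have h1 := hall _ (Or.inl (Or.inl (Or.inl (Or.inl ⟨a, e, he, rfl⟩))))
        rw [aeval_rename] at h1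
        exact h1
      · intro i
        refine ⟨fun h0 => ?_, fun a => ?_⟩
        · have h1 := hall _ (Or.inl (Or.inl (Or.inr ⟨i, rfl⟩)))
          rw [map_sub, map_mul, map_one, aeval_X, aeval_X] at h1
          have h2 : t (Un17.c i) * t (Un17.d i) - 1 = 0 := h1
          have h3 : t (Un17.c i) = 0 := h0
          rw [h3, zero_mul, zero_sub, neg_eq_zero] at h2
          exact one_ne_zero h2
        · have h1 := hall _ (Or.inl (Or.inl (Or.inl (Or.inr ⟨i, a, rfl⟩))))
          rw [map_sub, map_mul, px17_aeval, px17_aeval, aeval_X, sub_eq_zero] at h1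
          exact h1
      · intro a
        have h1 := hall _ (Or.inl (Or.inr ⟨a, rfl⟩))
        rw [map_prod, Finset.prod_eq_zero_iff] at h1
        obtain ⟨i, _, hi⟩ := h1
        rw [px17_aeval] at hi
        exact ⟨i, hi⟩)
  refine ⟨Φ, hΦ, fun K _ _ ℓ hT => ?_⟩
  obtain ⟨x, c, hx, hX, hc, hz⟩ := hT
  obtain ⟨b, hb⟩ := minor17 x hx
  refine hΦ' K (fun p => ℓ p.1 p.2) (fun z : Un17 N q => match z with
    | Un17.x a j => x a j
    | Un17.c i => c i
    | Un17.d i => (c i)⁻¹
    | Un17.m e => if e = b then (Matrix.of fun a a' => x a (b a')).det⁻¹ else 0) ?_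
  rintro f ((((⟨a, e, he, rfl⟩ | ⟨i, a, rfl⟩) | ⟨i, rfl⟩) | ⟨a, rfl⟩) | hf)
  · rw [aeval_rename]
    exact hX a e he
  · rw [map_sub, map_mul, px17_aeval, px17_aeval, aeval_X, sub_eq_zero]
    exact (hc i).2 a
  · rw [map_sub, map_mul, map_one, aeval_X, aeval_X]
    show c i * (c i)⁻¹ - 1 = 0
    rw [mul_inv_cancel₀ (hc i).1, sub_self]
  · rw [map_prod]
    obtain ⟨i, hi⟩ := hz a
    refine Finset.prod_eq_zero (Finset.mem_univ i) ?_
    rw [px17_aeval]
    exact hi
  · rw [Set.mem_singleton_iff] at hf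
    rw [hf, mi17_aeval]
    show ∑ e : Fin 3 → Fin (N + 1), (if e = b then (Matrix.of fun a a' => x a (b a')).det⁻¹ else 0) *
      (Matrix.of fun a b => x a (e b)).det - 1 = 0
    rw [Finset.sum_eq_single b, if_pos rfl, inv_mul_cancel₀ hb, sub_self]
    · intro e _ he
      rw [if_neg he, zero_mul]
    · intro h
      exact absurd (Finset.mem_univ _) h

end Pool.Agent.FIN
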